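import Mathlib
import Pool.Agent.T2h79.DV.Univ
import Pool.Agent.N846.ZD.Main

/-!
# `GL_n` over a number field: violations of the Ramanujan conjecture are rare, simultaneously at all places

Let `K` be a number field, `n ≥ 1`, and let `(Π_f)` be **any** family of pairwise different unitary cuspidal automorphic
representations of `GL_n` over `K` (all of them are globally generic): any levels, any archimedean types, nothing is assumed on
the size of the family. `S f` contains the finite places where `Π_f` is ramified, `α_{f,v,i}` are the Satake parameters and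
`θ_{f,v} = max_i |log_{Nv} |α_{f,v,i}||`; the conjecture says that `θ_{f,v} = 0`. Put
`dens(δ) = (1 - 2 δ) / max(1, 4 δ)`. We show, for all `0 < δ ≤ 1/2` and `ε > 0`, with constants `A` which depend only on `K`, `n`,
`ε` and a lower bound for `δ`:

1. (one place) If `v ∉ S f`, `θ_{f,v} ≥ δ` for all `f ∈ T` and the analytic conductors of the pairs `Π_f × Π_g~`, `f, g ∈ T`, are
   at most `Q`, then `|T| ≤ A Nv^{⌊n/2⌋ (1 - 2 δ) + ε} Q^{dens(δ) + ε}`, **for all** `v`.
2. (all places with a norm up to `Y`) The number of the pairs `(f, v)` with `Nv ≤ Y` and `θ_{f,v} ≥ δ` is at most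
   `A Y^{1 + ⌊n/2⌋ (1 - 2 δ) + ε} Q^{dens(δ) + ε}`, if the conductors of the pairs of representations are at most `Q`.
3. (universal families) Let the conductors of the pairs be at most `B (C_f C_g)^n`. For standard conductors `C_f` this is known,
   with `B = B(K, n)`, from the bounds of Bushnell and Henniart; so the family may consist of **all** unitary cuspidal
   representations of `GL_n` over `K` with central characters trivial on the positive reals. Let `c ≥ 0`. For `X ≥ A(K,n,δ,ε,c,B)`
   there is an exceptional set of at most `X^{2 n dens(δ) + c (1 + ⌊n/2⌋ (1 - 2 δ)) + ε}` representations such that for all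
   others with `C_f ≤ X`: `θ_{f,v} < δ` for **all** finite places `v ∉ S f` with `Nv ≤ X^c`; and all archimedean parameters `s`
   with `|Im s| ≤ X^c` satisfy `Re s < δ`. Here `P f l s` says that the archimedean component of `Π_f` at some archimedean
   place contains a character, or a representation of fixed weight, twisted by `|·|^{-s}` (the place and the type are the
   label `l`, one of `M` labels), so that one of the Gamma factors of `L(s, Π_f × Π_g~)` is `Γ_ℝ(s - (s_f + conj s_g))` if
   `P f l s_f` and `P g l s_g`.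
4. The exponent `2 n dens(δ)` in 3. is smaller than `n + 1` for `δ > 1/4 - 1/(4n)`, and for `δ = 1/4` the whole exponent is
   smaller than `n + 1` if `c < 2 / (2 + ⌊n/2⌋)`. There are about `X^{n + 1}` unitary cuspidal representations of `GL_n` over `K`
   with conductor at most `X` (Brumley, Milićević). So, ordered by the conductor, **100 per cent of all unitary cuspidal
   representations `Π` of `GL_n` satisfy `θ_{Π,v} < 1/4 - 1/(4n) + ε'` at all unramified `v` with `Nv ≤ C(Π)^{c(ε')}`, and
   `θ_{Π,v} < 1/4` at all unramified `v` with `Nv ≤ C(Π)^c`, for every `c < 2 / (2 + ⌊n/2⌋)`** (with the same bounds for the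
   archimedean parameters), with a power saving for the number of exceptions. The best bound for each `Π` is
   `1/2 - 1/(n² + 1)` for `n ≥ 5` and `5/14`, `9/22` for `n = 3, 4`.

For a fixed place and families given by a trace formula there are the density theorems of Sarnak's kind (for `n ≥ 3`: Blomer;
Blomer, Buttcane, Maga; Matz, Templier; Assing, Blomer). Our starting point is the density theorem for spherical forms on
`PGL_n` over `ℚ` (our result `MP_fa98d2_nt.DensityTheorem`), in which the place enters by the factor `p^{2 n² (dens(δ) + ε)}`. The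
approach there is to remove the Euler factor at `p` from the `L`-functions. It is used here for the places with
`Nv ≤ Q^{η}` only, and does not give 2. and 3. with a reasonable exponent.

The structure `GLFamily` lists what is used on the pairs `Π_f × Π_g~`; all of it is known for unitary cuspidal representations
with central characters trivial on the positive reals (Jacquet, Piatetski-Shapiro, Shalika; Moeglin, Waldspurger). The numbers
`u(v, k, j)` are the normalised coefficients of `log L(s, Π × Π~)`.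

The proof of 1. for `Nv ≥ Q^η`. By Newton's identities and the unitarity of `Π_v` one of the power sums
`p_k = ∑_i α_{f,v,i}^k`, `k ≤ ⌊n/2⌋`, is at least `(Nv^δ/4)^k`. Its powers `p_k^m` are coefficients of the representations: linear
functionals, of norm `O(1)` up to `Nv^{ε k m}`, of the vector `exp(u_f)` in the Fock space of `u`, localised to the block
around `Nv^{km}`. The Gram matrix of the localised vectors has diagonal elements `≪ Q^ε Y^{1 + ε}`, `Y = Nv^{km}`, and
off-diagonal elements `≪ Q^{1/2 + σ₀ + ε} Y^{-σ₀}` for every `σ₀ > 0`, the `L`-functions of the pairs to the left of the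
critical strip. Duality with `σ₀ → 0` or `σ₀ → ∞` and `Y` the first power of `Nv^k` beyond `Q^{1/max(1, 4δ) + ε}` gives the
bound; `Y` may be larger than this by the factor `Nv^{⌊n/2⌋}`, which is the loss in the theorem.
-/

set_option autoImplicit false

namespace Pool.Agent.Results.MP_08cfa9_nt.DensityAllPlaces

open NumberField IsDedekindDomain
open Pool.Agent.N846.DT (dens)
open Pool.Agent.N846.DU (GLFamily VX Nv)
open Pool.Agent.N846.ZD (pow blockS lft dia)
open Pool.Agent.T2h79.DV

/-- **Violations of the Ramanujan conjecture on `GL(n)` are rare, simultaneously at all places.** -/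
theorem result (K : Type) [Field K] [NumberField K] (n N : ℕ) {δ₀ ε : ℝ} (hδ₀ : 0 < δ₀) (hε : 0 < ε) :
    (∃ A : ℝ, 1 ≤ A ∧
      ∀ (ι : Type) (S : ι → Finset (HeightOneSpectrum (𝓞 K)))
        (α : ι → HeightOneSpectrum (𝓞 K) → Fin n → ℂ) (u : ι → VX K → ℂ) (q : ι → ι → ℝ) (κ : ι → ι → Fin N → ℂ),
        GLFamily n N S α u q κ → ∀ (v : HeightOneSpectrum (𝓞 K)) (δ Q : ℝ) (T : Set ι), δ₀ ≤ δ → 1 ≤ Q →
        (∀ f ∈ T, v ∉ S f ∧ ∃ i, δ ≤ |Real.logb (Nv v) ‖α f v i‖|) →
        (∀ f ∈ T, ∀ g ∈ T, q f g * ∏ j, (1 + ‖κ f g j‖) ≤ Q) →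
        T.Finite ∧ (T.ncard : ℝ) ≤ A * Nv v ^ ((n / 2 : ℕ) * (1 - 2 * δ) + ε) * Q ^ (dens δ + ε)) ∧
    (∃ A : ℝ, 1 ≤ A ∧
      ∀ (ι : Type) (S : ι → Finset (HeightOneSpectrum (𝓞 K)))
        (α : ι → HeightOneSpectrum (𝓞 K) → Fin n → ℂ) (u : ι → VX K → ℂ) (q : ι → ι → ℝ) (κ : ι → ι → Fin N → ℂ),
        GLFamily n N S α u q κ → ∀ (δ Q Y : ℝ) (T : Set (ι × HeightOneSpectrum (𝓞 K))), δ₀ ≤ δ → 1 ≤ Q → 1 ≤ Y →
        (∀ x ∈ T, Nv x.2 ≤ Y ∧ x.2 ∉ S x.1 ∧ ∃ i, δ ≤ |Real.logb (Nv x.2) ‖α x.1 x.2 i‖|) →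
        (∀ x ∈ T, ∀ y ∈ T, q x.1 y.1 * ∏ j, (1 + ‖κ x.1 y.1 j‖) ≤ Q) →
        T.Finite ∧ (T.ncard : ℝ) ≤ A * Y ^ (1 + (n / 2 : ℕ) * (1 - 2 * δ) + ε) * Q ^ (dens δ + ε)) ∧
    (∀ (δ c B : ℝ) (M : ℕ), 0 < δ → 0 ≤ c → 1 ≤ B → ∃ A : ℝ, 1 ≤ A ∧
      ∀ (ι : Type) (S : ι → Finset (HeightOneSpectrum (𝓞 K)))
        (α : ι → HeightOneSpectrum (𝓞 K) → Fin n → ℂ) (u : ι → VX K → ℂ) (q : ι → ι → ℝ) (κ : ι → ι → Fin N → ℂ)
        (C : ι → ℝ) (P : ι → Fin M → ℂ → Prop),
        GLFamily n N S α u q κ → (∀ f, 1 ≤ C f) →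
        (∀ f g, q f g * ∏ j, (1 + ‖κ f g j‖) ≤ B * (C f * C g) ^ n) →
        (∀ f l s, P f l s → s.re ≤ 1 / 2) →
        (∀ f g, f ≠ g → ∀ l s t, P f l s → P g l t → ∃ j, κ f g j = -(s + (starRingEnd ℂ) t)) →
        ∀ X : ℝ, A ≤ X → ∃ E : Set ι, E.Finite ∧
          (E.ncard : ℝ) ≤ X ^ (2 * n * dens δ + c * (1 + (n / 2 : ℕ) * (1 - 2 * δ)) + ε) ∧
          ∀ f, C f ≤ X → f ∉ E →
            (∀ v, v ∉ S f → Nv v ≤ X ^ c → ∀ i, |Real.logb (Nv v) ‖α f v i‖| < δ) ∧
            ∀ l s, P f l s → |s.im| ≤ X ^ c → s.re < δ) ∧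
    (1 ≤ n → ∀ δ : ℝ, 1 / 4 - 1 / (4 * n) < δ → 2 * n * dens δ < (n : ℝ) + 1) ∧
    (∀ c : ℝ, c * (1 + (n / 2 : ℕ) / 2) < 1 →
      2 * n * dens (1 / 4) + c * (1 + (n / 2 : ℕ) * (1 - 2 * (1 / 4))) < (n : ℝ) + 1) :=
  ⟨uniform pow blockS lft dia K n N hδ₀ hε, pairs pow blockS lft dia K n N hδ₀ hε,
    fun _ _ _ M hδ hc hB => univ_all pow blockS lft dia K n N M hδ hε hc hB,
    fun hn _ hδ => expo1 hn hδ, fun _ hc => expo2 n hc⟩

end Pool.Agent.Results.MP_08cfa9_nt.DensityAllPlaces
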